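import Pool.Agent.H89.TDS.Abelian

/-!
Eigenvalues of circulant graphs by characters.
-/

namespace Pool.Agent.H89.TDS

open Pointwise

/-- `t²/(t²-1)` is bigger than minus every character sum over the connection set. -/
def CharAdmissible {B : Type} [AddCommGroup B] (S : Set B) (t : ℝ) : Prop :=
  1 < t ∧ ∀ χ : AddChar B ℂ, 0 < t ^ 2 + (t ^ 2 - 1) * (∑ᶠ s ∈ (S ∪ -S) \ {0}, χ s).re

theorem charAdmissible_iff {B : Type} [AddCommGroup B] [Finite B] (S : Set B) (t : ℝ) :
    Admissible (SimpleGraph.circulantGraph S) t ↔ CharAdmissible S t := by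
  classical
  have : Fintype B := Fintype.ofFinite _
  let D : Finset B := Finset.univ.filter (fun s => s ∈ (S ∪ -S) \ {0})
  have hD : ∀ s, s ∈ D ↔ s ∈ (S ∪ -S) \ {0} := by
    intro s; simp [D]
  have hDneg : ∀ s, s ∈ D → -s ∈ D := by
    intro s hs
    rw [hD] at hs ⊢
    simp only [Set.mem_sdiff, Set.mem_union, Set.mem_neg, Set.mem_singleton_iff, neg_neg,
      neg_eq_zero] at hs ⊢
    tauto
  have hnb : ∀ (f : B → ℝ) (p : B),
      (∑ᶠ q ∈ (SimpleGraph.circulantGraph S).neighborSet p, f q) = ∑ s ∈ D, f (p + s) := by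
    intro f p
    have h1 : (SimpleGraph.circulantGraph S).neighborSet p = ((D.image (fun s => p + s) : Finset B) : Set B) := by
      ext q
      simp only [SimpleGraph.mem_neighborSet, SimpleGraph.circulantGraph_adj, Finset.coe_image,
        Set.mem_image, Finset.mem_coe, hD, Set.mem_sdiff, Set.mem_union, Set.mem_neg,
        Set.mem_singleton_iff]
      constructor
      · rintro ⟨hne, h⟩
        refine ⟨q - p, ⟨?_, fun h0 => hne (sub_eq_zero.1 h0).symm⟩, by abel⟩
        rcases h with h | h
        · right; rw [neg_sub]; exact h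
        · left; exact h
      · rintro ⟨s, ⟨h, hs0⟩, rfl⟩
        refine ⟨fun h0 => hs0 (by simpa using h0.symm), ?_⟩
        rcases h with h | h
        · right; simpa using h
        · left; simpa using h
    rw [h1, finsum_mem_coe_finset, Finset.sum_image]
    intro a _ b _ hab
    exact add_left_cancel hab
  have hfs : ∀ χ : AddChar B ℂ, (∑ᶠ s ∈ (S ∪ -S) \ {0}, χ s) = ∑ s ∈ D, χ s := by
    intro χ
    have h1 : (S ∪ -S) \ {0} = (D : Set B) := by
      ext s; rw [Finset.mem_coe, hD]
    rw [h1, finsum_mem_coe_finset]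
  have hsym : ∀ χ : AddChar B ℂ, ∑ s ∈ D, χ (-s) = ∑ s ∈ D, χ s := by
    intro χ
    apply Finset.sum_nbij' (fun s => -s) (fun s => -s)
    · exact hDneg
    · exact hDneg
    · intro a _; simp
    · intro a _; simp
    · intro a _; rfl
  have hreal : ∀ χ : AddChar B ℂ, (starRingEnd ℂ) (∑ s ∈ D, χ s) = ∑ s ∈ D, χ s := by
    intro χ
    rw [map_sum, ← hsym χ]
    apply Finset.sum_congr rfl
    intro s _
    rw [AddChar.map_neg_eq_conj]
  have hreal' : ∀ χ : AddChar B ℂ, (((∑ s ∈ D, χ s).re : ℝ) : ℂ) = ∑ s ∈ D, χ s := by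
    intro χ
    exact Complex.conj_eq_iff_re.1 (hreal χ)
  unfold Admissible CharAdmissible
  refine and_congr_right fun ht => ?_
  constructor
  · intro h χ
    rw [hfs]
    apply h _ (fun p => (χ p).re)
    · intro h0
      have := congrFun h0 0
      simp at this
    · intro p
      rw [hnb]
      have h1 : ∑ s ∈ D, χ (p + s) = χ p * ((∑ s ∈ D, χ s).re : ℝ) := by
        rw [hreal', Finset.mul_sum]
        apply Finset.sum_congr rfl
        intro s _
        rw [AddChar.map_add_eq_mul]
      have h2 := congrArg Complex.re h1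
      rw [Complex.re_sum, Complex.re_mul_ofReal] at h2
      rw [h2, mul_comm]
  · intro h lam f hf hev
    obtain ⟨χ, hχ⟩ : ∃ χ : AddChar B ℂ, ∑ p, χ p * (f p : ℂ) ≠ 0 := by
      by_contra hn
      push Not at hn
      apply hf
      funext q
      have h1 : ∑ χ : AddChar B ℂ, χ (-q) * ∑ p, χ p * (f p : ℂ) = 0 := by
        apply Finset.sum_eq_zero
        intro χ _
        rw [hn χ, mul_zero]
      have h2 : ∑ χ : AddChar B ℂ, χ (-q) * ∑ p, χ p * (f p : ℂ) =
          ∑ p, (f p : ℂ) * ∑ χ : AddChar B ℂ, χ (p - q) := by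
        simp_rw [Finset.mul_sum]
        rw [Finset.sum_comm]
        apply Finset.sum_congr rfl
        intro p _
        apply Finset.sum_congr rfl
        intro χ _
        rw [sub_eq_add_neg, AddChar.map_add_eq_mul]
        ring
      rw [h2] at h1
      simp_rw [AddChar.sum_apply_eq_ite] at h1
      simp only [sub_eq_zero, mul_ite, mul_zero, Finset.sum_ite_eq', Finset.mem_univ, if_true] at h1
      have h3 : (f q : ℂ) = 0 := by
        rcases mul_eq_zero.1 h1 with h3 | h3
        · exact h3
        · exfalso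
          have : (Fintype.card B : ℂ) ≠ 0 := by
            exact_mod_cast Fintype.card_ne_zero
          exact this h3
      exact_mod_cast h3
    have h4 := h χ
    rw [hfs] at h4
    have h5 : (lam : ℂ) = ∑ s ∈ D, χ s := by
      have h6 : ∑ p, χ p * ((∑ s ∈ D, f (p + s) : ℝ) : ℂ) = (lam : ℂ) * ∑ p, χ p * (f p : ℂ) := by
        rw [Finset.mul_sum]
        apply Finset.sum_congr rfl
        intro p _
        rw [← hnb, hev p]
        push_cast
        ring
      have h7 : ∑ p, χ p * ((∑ s ∈ D, f (p + s) : ℝ) : ℂ) =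
          (∑ s ∈ D, χ (-s)) * ∑ p, χ p * (f p : ℂ) := by
        have e1 : ∑ p, χ p * ((∑ s ∈ D, f (p + s) : ℝ) : ℂ) = ∑ s ∈ D, ∑ p, χ p * (f (p + s) : ℂ) := by
          rw [Finset.sum_comm]
          apply Finset.sum_congr rfl
          intro p _
          push_cast
          rw [Finset.mul_sum]
        rw [e1, Finset.sum_mul]
        apply Finset.sum_congr rfl
        intro s _
        rw [Finset.mul_sum]
        apply Fintype.sum_equiv (Equiv.addRight s)
        intro p
        simp only [Equiv.coe_addRight]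
        rw [← mul_assoc, ← AddChar.map_add_eq_mul]
        congr 2
        abel_nf
      rw [h6, hsym] at h7
      exact mul_right_cancel₀ hχ h7
    have h8 : lam = (∑ s ∈ D, χ s).re := by
      rw [← h5]; simp
    rw [h8]
    exact h4

end Pool.Agent.H89.TDS
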