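import Pool.Agent.H89.TDS.Prime

/-!
Homogeneous families indexed by a set of size `p^k`, `k ≤ 2`.
-/

namespace Pool.Agent.H89.TDS

/-- homogeneity: the isometry group is transitive -/
def IsHomogeneous (X : Type) [MetricSpace X] : Prop :=
  ∀ x y : X, ∃ f : X ≃ᵢ X, f x = y

theorem normal_of_cw {X : Type} [MetricSpace X] [Finite X] [Nonempty X] (h : IsCWHomogeneous X) :
    IsNormalHomogeneous X := by
  rw [normalHomogeneous_iff]
  intro x y
  obtain ⟨f, hf, hfd⟩ := h x y
  refine ⟨f, hf, fun z => ?_⟩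
  rw [hfd z x, hf]

theorem homogeneous_of_cw {X : Type} [MetricSpace X] (h : IsCWHomogeneous X) : IsHomogeneous X := by
  intro x y
  obtain ⟨f, hf, -⟩ := h x y
  exact ⟨f, hf⟩

section

variable {V : Type} {E : Type} [MetricSpace E] {v : V → E}

theorem exists_abelian_isoGroup [Finite V] [Nonempty V] (p k : ℕ) [hp : Fact p.Prime] (hk : k ≤ 2)
    (hc : Nat.card V = p ^ k) (hv : Function.Injective v) (hN : IsHomogeneous (Set.range v)) :
    ∃ B : Subgroup (isoGroup v), (∀ a ∈ B, ∀ b ∈ B, a * b = b * a) ∧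
      ∀ x y : V, ∃ b ∈ B, b • x = y := by
  have : MulAction.IsPretransitive (isoGroup v) V := by
    refine ⟨fun i j => ?_⟩
    obtain ⟨f, hf⟩ := hN ⟨v i, Set.mem_range_self i⟩ ⟨v j, Set.mem_range_self j⟩
    obtain ⟨g, hg⟩ := exists_perm hv f
    refine ⟨g, hv ?_⟩
    have := hg i
    rw [hf] at this
    exact (congrArg Subtype.val this).symm
  exact exists_abelian_transitive p k hk hc

theorem cw_of_prime_sq [Finite V] [Nonempty V] (p k : ℕ) [hp : Fact p.Prime] (hk : k ≤ 2)
    (hc : Nat.card V = p ^ k) (hv : Function.Injective v) (hN : IsHomogeneous (Set.range v)) :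
    IsCWHomogeneous (Set.range v) := by
  obtain ⟨B, hB, hBt⟩ := exists_abelian_isoGroup p k hk hc hv hN
  rintro ⟨_, i, rfl⟩ ⟨_, j, rfl⟩
  obtain ⟨b, hb, hbij⟩ := hBt i j
  obtain ⟨f, hf⟩ := exists_isometry v hv (b : Equiv.Perm V) (fun i j => isoGroup_dist v b i j)
  have hconst : ∀ l, dist (v l) (v (b • l)) = dist (v i) (v (b • i)) := by
    intro l
    obtain ⟨a, ha, rfl⟩ := hBt i l
    rw [smul_smul, hB b hb a ha, mul_smul, isoGroup_dist]
  refine ⟨f, ?_, ?_⟩
  · rw [hf i]
    exact Subtype.ext (congrArg v hbij)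
  · rintro ⟨_, z, rfl⟩ ⟨_, w, rfl⟩
    rw [hf z, hf w]
    show dist (v z) (v (b • z)) = dist (v w) (v (b • w))
    rw [hconst z, hconst w]

theorem exists_circulant_model [Finite V] [Nonempty V] (p k : ℕ) [hp : Fact p.Prime] (hk : k ≤ 2)
    (hc : Nat.card V = p ^ k) (hv : Function.Injective v) (h2 : IsTwoDistance (Set.range v))
    (hN : IsHomogeneous (Set.range v)) :
    ∃ (B : Type) (_ : AddCommGroup B) (S : Set B) (e : B ≃ V) (c t : ℝ),
      SimpleGraph.circulantGraph S ≠ ⊥ ∧ SimpleGraph.circulantGraph S ≠ ⊤ ∧ 0 < c ∧ 1 < t ∧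
      Follows (SimpleGraph.circulantGraph S) c t (fun p => v (e p)) := by
  classical
  obtain ⟨B, hB, hBt⟩ := exists_abelian_isoGroup p k hk hc hv hN
  obtain ⟨x₀⟩ := (inferInstance : Nonempty V)
  obtain ⟨a, b, hab, ⟨x1, y1, hxy1, hd1⟩, ⟨x2, y2, hxy2, hd2⟩, hall⟩ := h2
  have hall' : ∀ i j : V, i ≠ j → dist (v i) (v j) = a ∨ dist (v i) (v j) = b := by
    intro i j hij
    exact hall ⟨v i, Set.mem_range_self i⟩ ⟨v j, Set.mem_range_self j⟩
      (fun h0 => hij (hv (congrArg Subtype.val h0)))
  have ha : 0 < a := by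
    rw [← hd1]
    exact dist_pos.2 hxy1
  let instB : CommGroup B := { (inferInstance : Group B) with
    mul_comm := fun x y => Subtype.ext (hB x x.2 y y.2) }
  let φ : Additive B → V := fun x => ((Additive.toMul x : B) : isoGroup v) • x₀
  have hφinj : Function.Injective φ := by
    intro x y hxy
    have hxy' : ((Additive.toMul x : B) : isoGroup v) • x₀ = ((Additive.toMul y : B) : isoGroup v) • x₀ := hxy
    have h1 : ((Additive.toMul x : B) : isoGroup v) = ((Additive.toMul y : B) : isoGroup v) := by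
      apply Subtype.ext
      apply Equiv.ext
      intro z
      obtain ⟨g, hg, rfl⟩ := hBt x₀ z
      show ((Additive.toMul x : B) : isoGroup v) • (g • x₀) = ((Additive.toMul y : B) : isoGroup v) • (g • x₀)
      rw [smul_smul, smul_smul, hB _ (Additive.toMul x).2 g hg, hB _ (Additive.toMul y).2 g hg, mul_smul,
        mul_smul, hxy']
    exact Additive.toMul.injective (Subtype.ext h1)
  have hφsurj : Function.Surjective φ := by
    intro y
    obtain ⟨g, hg, hgy⟩ := hBt x₀ y
    exact ⟨Additive.ofMul ⟨g, hg⟩, hgy⟩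
  let e : Additive B ≃ V := Equiv.ofBijective φ ⟨hφinj, hφsurj⟩
  let S : Set (Additive B) := {x | dist (v x₀) (v (φ x)) = a}
  have hdiff : ∀ x y : Additive B, dist (v (φ x)) (v (φ y)) = dist (v x₀) (v (φ (y - x))) := by
    intro x y
    have h1 : φ y = ((Additive.toMul x : B) : isoGroup v) • φ (y - x) := by
      show ((Additive.toMul y : B) : isoGroup v) • x₀ =
        ((Additive.toMul x : B) : isoGroup v) • (((Additive.toMul (y - x) : B) : isoGroup v) • x₀)
      rw [smul_smul, ← Subgroup.coe_mul, ← toMul_add]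
      congr 4
      abel
    rw [h1]
    exact isoGroup_dist v _ _ _
  have hadj : ∀ x y : Additive B, (SimpleGraph.circulantGraph S).Adj x y ↔ dist (v (e x)) (v (e y)) = a := by
    intro x y
    rw [SimpleGraph.circulantGraph_adj]
    constructor
    · rintro ⟨-, h1 | h1⟩
      · have h2 : dist (v x₀) (v (φ (x - y))) = a := h1
        show dist (v (φ x)) (v (φ y)) = a
        rw [dist_comm, hdiff]
        exact h2
      · have h2 : dist (v x₀) (v (φ (y - x))) = a := h1
        show dist (v (φ x)) (v (φ y)) = a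
        rw [hdiff]
        exact h2
    · intro h1
      have h2 : dist (v (φ x)) (v (φ y)) = a := h1
      refine ⟨?_, Or.inr ?_⟩
      · rintro rfl
        rw [dist_self] at h2
        exact ha.ne h2
      · rw [hdiff] at h2
        exact h2
  refine ⟨Additive B, inferInstance, S, e, a, b / a, ?_, ?_, ha, (one_lt_div ha).2 hab, ?_⟩
  · obtain ⟨i, hi⟩ := x1.2
    obtain ⟨j, hj⟩ := y1.2
    intro h0
    have h3 : (SimpleGraph.circulantGraph S).Adj (e.symm i) (e.symm j) := by
      rw [hadj, e.apply_symm_apply, e.apply_symm_apply, hi, hj]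
      exact hd1
    rw [h0] at h3
    exact h3
  · obtain ⟨i, hi⟩ := x2.2
    obtain ⟨j, hj⟩ := y2.2
    intro h0
    have h3 : ¬ (SimpleGraph.circulantGraph S).Adj (e.symm i) (e.symm j) := by
      rw [hadj, e.apply_symm_apply, e.apply_symm_apply, hi, hj]
      have : dist (x2 : E) (y2 : E) = b := hd2
      rw [this]
      exact hab.ne'
    rw [h0] at h3
    apply h3
    rw [SimpleGraph.top_adj]
    intro h4
    have h5 : i = j := e.symm.injective h4
    apply hxy2
    apply Subtype.ext
    rw [← hi, ← hj, h5]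
  · intro x y hxy
    refine ⟨fun h => (hadj x y).1 h, fun h => ?_⟩
    rw [hadj] at h
    have hne : e x ≠ e y := fun h0 => hxy (e.injective h0)
    rcases hall' _ _ hne with h0 | h0
    · exact absurd h0 h
    · rw [h0]
      field_simp

end

/-- families that follow a circulant graph of an abelian group are Clifford-Wolf homogeneous -/
theorem cw_of_circulant {B : Type} [AddCommGroup B] {S : Set B} {E : Type} [MetricSpace E] {c t : ℝ}
    {v : B → E} (h : Follows (SimpleGraph.circulantGraph S) c t v) (hc : 0 < c) (ht : 1 < t) :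
    IsCWHomogeneous (Set.range v) := by
  have hinj := follows_inj h hc ht
  have hdist : ∀ d x y : B, dist (v (x + d)) (v (y + d)) = dist (v x) (v y) := by
    intro d x y
    exact follows_aut h (Equiv.addRight d)
      (fun i j => SimpleGraph.circulantGraph_adj_translate) x y
  rintro ⟨_, x, rfl⟩ ⟨_, y, rfl⟩
  obtain ⟨f, hf⟩ := exists_isometry v hinj (Equiv.addRight (y - x)) (fun i j => hdist (y - x) i j)
  have hconst : ∀ z : B, dist (v z) (v (z + (y - x))) = dist (v x) (v y) := by
    intro z
    have h1 := hdist (z - x) x y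
    have e1 : x + (z - x) = z := by abel
    have e2 : y + (z - x) = z + (y - x) := by abel
    rw [e1, e2] at h1
    exact h1
  refine ⟨f, ?_, ?_⟩
  · rw [hf x]
    apply Subtype.ext
    show v (x + (y - x)) = v y
    rw [add_sub_cancel]
  · rintro ⟨_, z, rfl⟩ ⟨_, w, rfl⟩
    rw [hf z, hf w]
    show dist (v z) (v (z + (y - x))) = dist (v w) (v (w + (y - x)))
    rw [hconst, hconst]

theorem affine_iff_admissible_circulant {B : Type} [AddCommGroup B] [Finite B] {S : Set B}
    {E : Type} [NormedAddCommGroup E] [InnerProductSpace ℝ E] {c t : ℝ} {v : B → E}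
    (h : Follows (SimpleGraph.circulantGraph S) c t v) (hc : 0 < c) (ht : 1 < t) :
    AffineIndependent ℝ v ↔ Admissible (SimpleGraph.circulantGraph S) t := by
  classical
  have : Fintype B := Fintype.ofFinite _
  rw [admissible_iff]
  rw [affineIndependent_iff_pos (SimpleGraph.circulantGraph S) v c t hc ((follows_iff _ c t v).1 h)]
  constructor
  · intro h1
    refine ⟨ht, posDef_of_regular (SimpleGraph.circulantGraph S) t ht
      ((SimpleGraph.circulantGraph S).degree 0) ?_ h1⟩
    apply regular_of_transitive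
    intro q
    refine ⟨⟨Equiv.addRight q, fun {a b} => SimpleGraph.circulantGraph_adj_translate⟩, ?_⟩
    show 0 + q = q
    rw [zero_add]
  · rintro ⟨-, h1⟩ x _ hx0
    have := (Matrix.posDef_iff_dotProduct_mulVec.1 h1).2 hx0
    simpa only [star_trivial] using this

end Pool.Agent.H89.TDS
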