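import Pool.Agent.H89.TDS.Group

/-!
From the vertex set of a simplex to a coset graph.
-/

open Matrix Pointwise

namespace Pool.Agent.H89.TDS

section

variable {V : Type} {E : Type} [MetricSpace E] (v : V → E)

/-- the permutations of the index set that preserve all distances -/
def isoGroup : Subgroup (Equiv.Perm V) where
  carrier := {σ | ∀ i j, dist (v (σ i)) (v (σ j)) = dist (v i) (v j)}
  mul_mem' := by
    intro σ τ hσ hτ i j
    show dist (v (σ (τ i))) (v (σ (τ j))) = _
    rw [hσ, hτ]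
  one_mem' := by intro i j; rfl
  inv_mem' := by
    intro σ hσ i j
    have h := hσ (σ⁻¹ i) (σ⁻¹ j)
    have h1 : σ (σ⁻¹ i) = i := σ.apply_symm_apply i
    have h2 : σ (σ⁻¹ j) = j := σ.apply_symm_apply j
    rw [h1, h2] at h
    exact h.symm

theorem isoGroup_dist (g : isoGroup v) (i j : V) : dist (v (g • i)) (v (g • j)) = dist (v i) (v j) :=
  g.2 i j

variable {v}

/-- every isometry of the set of values comes from an element of `isoGroup v` -/
theorem exists_perm (hv : Function.Injective v) (f : (Set.range v) ≃ᵢ (Set.range v)) :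
    ∃ g : isoGroup v, ∀ i, f ⟨v i, Set.mem_range_self i⟩ = ⟨v (g • i), Set.mem_range_self _⟩ := by
  let e : V ≃ Set.range v := Equiv.ofInjective v hv
  have he : ∀ i, e i = ⟨v i, Set.mem_range_self i⟩ := fun i => rfl
  have hev : ∀ x, v (e.symm x) = x := by
    intro x
    have := congrArg Subtype.val (e.apply_symm_apply x)
    exact this
  refine ⟨⟨(e.trans f.toEquiv).trans e.symm, ?_⟩, ?_⟩
  · intro i j
    simp only [Equiv.trans_apply]
    rw [hev, hev]
    exact f.isometry.dist_eq (e i) (e j)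
  · intro i
    apply Subtype.ext
    show ((f (e i) : Set.range v) : E) = v (e.symm (f (e i)))
    rw [hev]

theorem exists_normal_model [Finite V] [Nonempty V] (hv : Function.Injective v)
    (h2 : IsTwoDistance (Set.range v)) (hN : IsNormalHomogeneous (Set.range v)) :
    ∃ (G : Type) (_ : Group G) (_ : Finite G) (H : Subgroup G) (S : Set G) (e : G ⧸ H ≃ V) (c t : ℝ),
      (∀ g : G, ∀ s ∈ S, g * s * g⁻¹ ∈ S) ∧ cosetGraph H S ≠ ⊥ ∧ cosetGraph H S ≠ ⊤ ∧ 0 < c ∧ 1 < t ∧
      Follows (cosetGraph H S) c t (fun p => v (e p)) := by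
  classical
  have : Finite (Set.range v) := Set.finite_range v
  obtain ⟨x₀⟩ := (inferInstance : Nonempty V)
  have : Nonempty (Set.range v) := ⟨⟨v x₀, Set.mem_range_self _⟩⟩
  rw [normalHomogeneous_iff] at hN
  have hN' : ∀ i j : V, ∃ g : isoGroup v, g • i = j ∧ ∀ k, dist (v k) (v (g • k)) ≤ dist (v i) (v j) := by
    intro i j
    obtain ⟨f, hf, hfd⟩ := hN ⟨v i, Set.mem_range_self i⟩ ⟨v j, Set.mem_range_self j⟩
    obtain ⟨g, hg⟩ := exists_perm hv f
    refine ⟨g, ?_, ?_⟩
    · apply hv
      have := hg i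
      rw [hf] at this
      exact (congrArg Subtype.val this).symm
    · intro k
      have := hfd ⟨v k, Set.mem_range_self k⟩
      rw [hg k] at this
      exact this
  obtain ⟨a, b, hab, ⟨x1, y1, hxy1, hd1⟩, ⟨x2, y2, hxy2, hd2⟩, hall⟩ := h2
  have hall' : ∀ i j : V, i ≠ j → dist (v i) (v j) = a ∨ dist (v i) (v j) = b := by
    intro i j hij
    exact hall ⟨v i, Set.mem_range_self i⟩ ⟨v j, Set.mem_range_self j⟩
      (fun h0 => hij (hv (congrArg Subtype.val h0)))
  have ha : 0 < a := by
    rw [← hd1]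
    exact dist_pos.2 hxy1
  let G := isoGroup v
  have : Finite G := inferInstance
  let H := MulAction.stabilizer G x₀
  let S : Set G := {g | ∀ k, dist (v k) (v (g • k)) ≤ a}
  let e : G ⧸ H ≃ V := Equiv.ofBijective (MulAction.ofQuotientStabilizer G x₀)
    ⟨MulAction.injective_ofQuotientStabilizer G x₀, by
      intro y
      obtain ⟨g, hg, -⟩ := hN' x₀ y
      exact ⟨(g : G ⧸ H), hg⟩⟩
  have hesmul : ∀ (g : G) (p : G ⧸ H), e (g • p) = g • e p := by
    intro g p
    exact MulAction.ofQuotientStabilizer_smul G x₀ g p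
  have hadj : ∀ p q : G ⧸ H, (cosetGraph H S).Adj p q ↔ dist (v (e p)) (v (e q)) = a := by
    intro p q
    rw [cosetGraph_adj]
    constructor
    · rintro ⟨hpq, h1⟩
      have hne : e p ≠ e q := fun h0 => hpq (e.injective h0)
      have hle : dist (v (e p)) (v (e q)) ≤ a := by
        rcases h1 with ⟨s, hs, rfl⟩ | ⟨s, hs, rfl⟩
        · rw [hesmul]
          exact hs _
        · rw [hesmul, dist_comm]
          exact hs _
      rcases hall' _ _ hne with h0 | h0
      · exact h0
      · linarith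
    · intro hd
      have hpq : p ≠ q := by
        rintro rfl
        rw [dist_self] at hd
        exact ha.ne hd
      obtain ⟨g, hg, hgd⟩ := hN' (e p) (e q)
      rw [hd] at hgd
      refine ⟨hpq, Or.inl ⟨g, hgd, ?_⟩⟩
      apply e.injective
      rw [hesmul, hg]
  refine ⟨G, inferInstance, inferInstance, H, S, e, a, b / a, ?_, ?_, ?_, ha, (one_lt_div ha).2 hab, ?_⟩
  · intro g s hs k
    have h1 := hs (g⁻¹ • k)
    rw [← isoGroup_dist v g] at h1
    simp only [smul_smul] at h1
    rw [mul_inv_cancel, one_smul, ← mul_assoc] at h1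
    exact h1
  · obtain ⟨i, hi⟩ := x1.2
    obtain ⟨j, hj⟩ := y1.2
    intro h0
    have h3 : (cosetGraph H S).Adj (e.symm i) (e.symm j) := by
      rw [hadj, e.apply_symm_apply, e.apply_symm_apply, hi, hj]
      exact hd1
    rw [h0] at h3
    exact h3
  · obtain ⟨i, hi⟩ := x2.2
    obtain ⟨j, hj⟩ := y2.2
    intro h0
    have h3 : ¬ (cosetGraph H S).Adj (e.symm i) (e.symm j) := by
      rw [hadj, e.apply_symm_apply, e.apply_symm_apply, hi, hj]
      have : dist (x2 : E) (y2 : E) = b := hd2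
      rw [this]
      exact hab.ne'
    rw [h0] at h3
    apply h3
    rw [SimpleGraph.top_adj]
    intro h4
    have h5 : i = j := e.symm.injective h4
    apply hxy2
    apply Subtype.ext
    rw [← hi, ← hj, h5]
  · intro p q hpq
    refine ⟨fun h => (hadj p q).1 h, fun h => ?_⟩
    rw [hadj] at h
    have hne : e p ≠ e q := fun h0 => hpq (e.injective h0)
    rcases hall' _ _ hne with h0 | h0
    · exact absurd h0 h
    · rw [h0]
      field_simp

end

/-- `G` is the disjoint union of `H`, `S H` and `T H`, where `S` and `T` are conjugation invariant and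
`S` is closed under inversion. -/
def IsCWData {G : Type} [Group G] (H : Subgroup G) (S T : Set G) : Prop :=
  (∀ g : G, ∀ s ∈ S, g * s * g⁻¹ ∈ S) ∧ (∀ s ∈ S, s⁻¹ ∈ S) ∧ (∀ g : G, ∀ s ∈ T, g * s * g⁻¹ ∈ T) ∧
  (H : Set G) ∪ S * (H : Set G) ∪ T * (H : Set G) = Set.univ ∧
  Disjoint (H : Set G) (S * (H : Set G)) ∧ Disjoint (H : Set G) (T * (H : Set G)) ∧
  Disjoint (S * (H : Set G)) (T * (H : Set G))

section

variable {V : Type} {E : Type} [MetricSpace E] {v : V → E}

theorem exists_CW_model [Finite V] [Nonempty V] (hv : Function.Injective v)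
    (h2 : IsTwoDistance (Set.range v)) (hN : IsCWHomogeneous (Set.range v)) :
    ∃ (G : Type) (_ : Group G) (_ : Finite G) (H : Subgroup G) (S T : Set G) (e : G ⧸ H ≃ V) (c t : ℝ),
      IsCWData H S T ∧ S.Nonempty ∧ T.Nonempty ∧ 0 < c ∧ 1 < t ∧
      Follows (cosetGraph H S) c t (fun p => v (e p)) := by
  classical
  have : Finite (Set.range v) := Set.finite_range v
  obtain ⟨x₀⟩ := (inferInstance : Nonempty V)
  have hN' : ∀ i j : V, ∃ g : isoGroup v, g • i = j ∧ ∀ k, dist (v k) (v (g • k)) = dist (v i) (v j) := by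
    intro i j
    obtain ⟨f, hf, hfd⟩ := hN ⟨v i, Set.mem_range_self i⟩ ⟨v j, Set.mem_range_self j⟩
    obtain ⟨g, hg⟩ := exists_perm hv f
    refine ⟨g, ?_, ?_⟩
    · apply hv
      have := hg i
      rw [hf] at this
      exact (congrArg Subtype.val this).symm
    · intro k
      have := hfd ⟨v k, Set.mem_range_self k⟩ ⟨v i, Set.mem_range_self i⟩
      rw [hg k, hf] at this
      exact this
  obtain ⟨a, b, hab, ⟨x1, y1, hxy1, hd1⟩, ⟨x2, y2, hxy2, hd2⟩, hall⟩ := h2
  have hall' : ∀ i j : V, i ≠ j → dist (v i) (v j) = a ∨ dist (v i) (v j) = b := by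
    intro i j hij
    exact hall ⟨v i, Set.mem_range_self i⟩ ⟨v j, Set.mem_range_self j⟩
      (fun h0 => hij (hv (congrArg Subtype.val h0)))
  have ha : 0 < a := by
    rw [← hd1]
    exact dist_pos.2 hxy1
  let G := isoGroup v
  have : Finite G := inferInstance
  let H := MulAction.stabilizer G x₀
  let S : Set G := {g | ∀ k, dist (v k) (v (g • k)) = a}
  let T : Set G := {g | ∀ k, dist (v k) (v (g • k)) = b}
  have hconj : ∀ (r : ℝ) (g s : G), (∀ k, dist (v k) (v (s • k)) = r) →
      ∀ k, dist (v k) (v ((g * s * g⁻¹) • k)) = r := by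
    intro r g s hs k
    have h1 := hs (g⁻¹ • k)
    rw [← isoGroup_dist v g] at h1
    simp only [smul_smul] at h1
    rw [mul_inv_cancel, one_smul, ← mul_assoc] at h1
    exact h1
  let e : G ⧸ H ≃ V := Equiv.ofBijective (MulAction.ofQuotientStabilizer G x₀)
    ⟨MulAction.injective_ofQuotientStabilizer G x₀, by
      intro y
      obtain ⟨g, hg, -⟩ := hN' x₀ y
      exact ⟨(g : G ⧸ H), hg⟩⟩
  have hesmul : ∀ (g : G) (p : G ⧸ H), e (g • p) = g • e p := by
    intro g p
    exact MulAction.ofQuotientStabilizer_smul G x₀ g p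
  have hadj : ∀ p q : G ⧸ H, (cosetGraph H S).Adj p q ↔ dist (v (e p)) (v (e q)) = a := by
    intro p q
    rw [cosetGraph_adj]
    constructor
    · rintro ⟨hpq, h1⟩
      rcases h1 with ⟨s, hs, rfl⟩ | ⟨s, hs, rfl⟩
      · rw [hesmul]
        exact hs _
      · rw [hesmul, dist_comm]
        exact hs _
    · intro hd
      have hpq : p ≠ q := by
        rintro rfl
        rw [dist_self] at hd
        exact ha.ne hd
      obtain ⟨g, hg, hgd⟩ := hN' (e p) (e q)
      rw [hd] at hgd
      refine ⟨hpq, Or.inl ⟨g, hgd, ?_⟩⟩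
      apply e.injective
      rw [hesmul, hg]
  have hHmem : ∀ g : G, g ∈ H ↔ g • x₀ = x₀ := fun g => MulAction.mem_stabilizer_iff
  have hSH : ∀ g ∈ S * (H : Set G), dist (v x₀) (v (g • x₀)) = a := by
    rintro _ ⟨s, hs, h, hh, rfl⟩
    have h1 : (s * h) • x₀ = s • x₀ := by
      rw [mul_smul, (hHmem h).1 hh]
    show dist (v x₀) (v ((s * h) • x₀)) = a
    rw [h1]
    exact hs x₀
  have hTH : ∀ g ∈ T * (H : Set G), dist (v x₀) (v (g • x₀)) = b := by
    rintro _ ⟨s, hs, h, hh, rfl⟩
    have h1 : (s * h) • x₀ = s • x₀ := by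
      rw [mul_smul, (hHmem h).1 hh]
    show dist (v x₀) (v ((s * h) • x₀)) = b
    rw [h1]
    exact hs x₀
  have hmk : ∀ (g s : G), s • x₀ = g • x₀ → s⁻¹ * g ∈ H := by
    intro g s h
    rw [hHmem, mul_smul, ← h, smul_smul, inv_mul_cancel, one_smul]
  refine ⟨G, inferInstance, inferInstance, H, S, T, e, a, b / a, ?_, ?_, ?_, ha, (one_lt_div ha).2 hab, ?_⟩
  · refine ⟨fun g s hs => hconj a g s hs, ?_, fun g s hs => hconj b g s hs, ?_, ?_, ?_, ?_⟩
    · intro s hs k
      have h1 := hs (s⁻¹ • k)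
      rw [smul_smul, mul_inv_cancel, one_smul] at h1
      rw [dist_comm]; exact h1
    · ext g
      simp only [Set.mem_univ, iff_true]
      by_cases h0 : x₀ = g • x₀
      · left; left
        exact (hHmem g).2 h0.symm
      · obtain ⟨s, hs, hsd⟩ := hN' x₀ (g • x₀)
        rcases hall' _ _ h0 with h1 | h1
        · left; right
          rw [h1] at hsd
          exact ⟨s, hsd, s⁻¹ * g, hmk g s hs, by simp⟩
        · right
          rw [h1] at hsd
          exact ⟨s, hsd, s⁻¹ * g, hmk g s hs, by simp⟩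
    · rw [Set.disjoint_left]
      intro g hg hg2
      have h1 := hSH g hg2
      rw [(hHmem g).1 hg, dist_self] at h1
      exact ha.ne h1
    · rw [Set.disjoint_left]
      intro g hg hg2
      have h1 := hTH g hg2
      rw [(hHmem g).1 hg, dist_self] at h1
      linarith
    · rw [Set.disjoint_left]
      intro g hg hg2
      have h1 := hSH g hg
      have h2 := hTH g hg2
      rw [h1] at h2
      exact hab.ne h2
  · obtain ⟨i, hi⟩ := x1.2
    obtain ⟨j, hj⟩ := y1.2
    obtain ⟨g, hg, hgd⟩ := hN' i j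
    refine ⟨g, fun k => ?_⟩
    rw [hgd k, hi, hj]
    exact hd1
  · obtain ⟨i, hi⟩ := x2.2
    obtain ⟨j, hj⟩ := y2.2
    obtain ⟨g, hg, hgd⟩ := hN' i j
    refine ⟨g, fun k => ?_⟩
    rw [hgd k, hi, hj]
    exact hd2
  · intro p q hpq
    refine ⟨fun h => (hadj p q).1 h, fun h => ?_⟩
    rw [hadj] at h
    have hne : e p ≠ e q := fun h0 => hpq (e.injective h0)
    rcases hall' _ _ hne with h0 | h0
    · exact absurd h0 h
    · rw [h0]
      field_simp

end

end Pool.Agent.H89.TDS
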