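import Mathlib

/-!
Basic notions for two-distance homogeneous simplices (MP_2fc877_gt).
-/

namespace Pool.Agent.H89.TDS

/-- `X` has exactly two positive distances. -/
def IsTwoDistance (X : Type) [MetricSpace X] : Prop :=
  ∃ a b : ℝ, a < b ∧ (∃ x y : X, x ≠ y ∧ dist x y = a) ∧ (∃ x y : X, x ≠ y ∧ dist x y = b) ∧
    ∀ x y : X, x ≠ y → dist x y = a ∨ dist x y = b

/-- Normal homogeneity of a metric space: for some point `x₀` there are a subgroup `Γ` of the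
isometry group, transitive on `X`, and a bi-invariant metric `σ` on `Γ` such that the orbit map
`g ↦ g x₀` is a submetry, that is, maps each closed ball of `(Γ, σ)` onto the closed ball of `X`
with the image centre and the same radius. -/
def IsNormalHomogeneous (X : Type) [MetricSpace X] : Prop :=
  ∃ (x₀ : X) (Γ : Subgroup (X ≃ᵢ X)) (σ : MetricSpace Γ),
    (∀ y : X, ∃ g ∈ Γ, g x₀ = y) ∧
    (∀ g h k : Γ, σ.dist (k * g) (k * h) = σ.dist g h ∧ σ.dist (g * k) (h * k) = σ.dist g h) ∧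
    (∀ (g : Γ) (s : ℝ), (fun h : Γ => (h : X ≃ᵢ X) x₀) '' {h | σ.dist h g ≤ s} =
      Metric.closedBall ((g : X ≃ᵢ X) x₀) s)

/-- Clifford-Wolf homogeneity: any point is mapped to any other by an isometry with constant
displacement. -/
def IsCWHomogeneous (X : Type) [MetricSpace X] : Prop :=
  ∀ x y : X, ∃ f : X ≃ᵢ X, f x = y ∧ ∀ z w : X, dist z (f z) = dist w (f w)

/-- The graph on the cosets `G ⧸ H` in which two different cosets are joined if an element of `S`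
maps one of them to the other. -/
def cosetGraph {G : Type} [Group G] (H : Subgroup G) (S : Set G) : SimpleGraph (G ⧸ H) :=
  SimpleGraph.fromRel (fun p q => ∃ s ∈ S, s • p = q)

/-- `t²/(t²-1)` is bigger than minus the least eigenvalue of the adjacency matrix of `Γ`. -/
def Admissible {V : Type} (Γ : SimpleGraph V) (t : ℝ) : Prop :=
  1 < t ∧ ∀ (lam : ℝ) (f : V → ℝ), f ≠ 0 → (∀ p, (∑ᶠ q ∈ Γ.neighborSet p, f q) = lam * f p) →
    0 < t ^ 2 + (t ^ 2 - 1) * lam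

theorem normalHomogeneous_iff {X : Type} [MetricSpace X] [Finite X] [Nonempty X] :
    IsNormalHomogeneous X ↔
      ∀ x y : X, ∃ f : X ≃ᵢ X, f x = y ∧ ∀ z, dist z (f z) ≤ dist x y := by
  constructor
  · rintro ⟨x₀, Γ, σ, htr, hinv, hsub⟩ x y
    obtain ⟨g, hg, hgx⟩ := htr x
    have hlip : ∀ g h : Γ, dist ((h : X ≃ᵢ X) x₀) ((g : X ≃ᵢ X) x₀) ≤ σ.dist h g := by
      intro g h
      have : (h : X ≃ᵢ X) x₀ ∈ Metric.closedBall ((g : X ≃ᵢ X) x₀) (σ.dist h g) := by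
        rw [← hsub g (σ.dist h g)]
        exact ⟨h, le_refl (σ.dist h g), rfl⟩
      simpa [Metric.mem_closedBall] using this
    have hy : y ∈ Metric.closedBall (((⟨g, hg⟩ : Γ) : X ≃ᵢ X) x₀) (dist x y) := by
      rw [Metric.mem_closedBall]
      show dist y (g x₀) ≤ dist x y
      rw [hgx, dist_comm]
    rw [← hsub ⟨g, hg⟩ (dist x y)] at hy
    obtain ⟨h, hh, hhy⟩ := hy
    have hh' : σ.dist h ⟨g, hg⟩ ≤ dist x y := hh
    refine ⟨(h : X ≃ᵢ X) * g⁻¹, ?_, ?_⟩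
    · rw [← hgx]
      show (h : X ≃ᵢ X) (g⁻¹ (g x₀)) = y
      have : g⁻¹ (g x₀) = x₀ := by
        show g.symm (g x₀) = x₀
        simp
      rw [this]; exact hhy
    · intro z
      obtain ⟨k, hk, hkz⟩ := htr z
      have h1 : σ.dist (h * (⟨g, hg⟩ : Γ)⁻¹ * ⟨k, hk⟩) ⟨k, hk⟩ ≤ dist x y := by
        have e1 := (hinv (h * (⟨g, hg⟩ : Γ)⁻¹) 1 (⟨k, hk⟩ : Γ)).2
        rw [one_mul] at e1
        rw [e1]
        have e2 := (hinv h (⟨g, hg⟩ : Γ) (⟨g, hg⟩ : Γ)⁻¹).2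
        rw [mul_inv_cancel] at e2
        rw [e2]
        exact hh'
      have h2 := hlip (⟨k, hk⟩ : Γ) (h * (⟨g, hg⟩ : Γ)⁻¹ * ⟨k, hk⟩)
      rw [dist_comm]
      refine le_trans ?_ (le_trans h2 h1)
      have e3 : ((h * (⟨g, hg⟩ : Γ)⁻¹ * ⟨k, hk⟩ : Γ) : X ≃ᵢ X) x₀ = ((h : X ≃ᵢ X) * g⁻¹) z := by
        rw [← hkz]; rfl
      rw [e3]
      show dist (((h : X ≃ᵢ X) * g⁻¹) z) z ≤ dist (((h : X ≃ᵢ X) * g⁻¹) z) (k x₀)
      rw [hkz]
  · intro hg
    classical
    have : Fintype X := Fintype.ofFinite X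
    obtain ⟨x₀⟩ := (inferInstance : Nonempty X)
    have hinj : Function.Injective (fun (g : (⊤ : Subgroup (X ≃ᵢ X))) => (fun z : X => (g : X ≃ᵢ X) z)) := by
      intro g h hgh
      apply Subtype.ext
      apply IsometryEquiv.ext
      intro z
      exact congrFun hgh z
    let σ : MetricSpace (⊤ : Subgroup (X ≃ᵢ X)) :=
      MetricSpace.induced _ hinj (inferInstance : MetricSpace (X → X))
    have hσ : ∀ (g h : (⊤ : Subgroup (X ≃ᵢ X))) (r : ℝ), 0 ≤ r →
        (σ.dist g h ≤ r ↔ ∀ z, dist ((g : X ≃ᵢ X) z) ((h : X ≃ᵢ X) z) ≤ r) := by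
      intro g h r hr
      exact dist_pi_le_iff hr
    have hnn : ∀ (g h : (⊤ : Subgroup (X ≃ᵢ X))), 0 ≤ σ.dist g h := by
      intro g h
      exact dist_nonneg (α := (X → X))
    have hle : ∀ (g h : (⊤ : Subgroup (X ≃ᵢ X))) (z : X), dist ((g : X ≃ᵢ X) z) ((h : X ≃ᵢ X) z) ≤ σ.dist g h :=
      fun g h => (hσ g h _ (hnn g h)).1 le_rfl
    refine ⟨x₀, ⊤, σ, ?_, ?_, ?_⟩
    · intro y
      obtain ⟨f, hf, -⟩ := hg x₀ y
      exact ⟨f, Subgroup.mem_top f, hf⟩
    · intro g h k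
      constructor
      · apply le_antisymm
        · rw [hσ _ _ _ (hnn g h)]
          intro z
          show dist ((k : X ≃ᵢ X) ((g : X ≃ᵢ X) z)) ((k : X ≃ᵢ X) ((h : X ≃ᵢ X) z)) ≤ _
          rw [(k : X ≃ᵢ X).isometry.dist_eq]
          exact hle g h z
        · rw [hσ _ _ _ (hnn _ _)]
          intro z
          have := hle (k * g) (k * h) z
          have e : dist (((k * g : (⊤ : Subgroup (X ≃ᵢ X))) : X ≃ᵢ X) z) (((k * h : (⊤ : Subgroup (X ≃ᵢ X))) : X ≃ᵢ X) z) =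
              dist ((g : X ≃ᵢ X) z) ((h : X ≃ᵢ X) z) := by
            show dist ((k : X ≃ᵢ X) ((g : X ≃ᵢ X) z)) ((k : X ≃ᵢ X) ((h : X ≃ᵢ X) z)) = _
            rw [(k : X ≃ᵢ X).isometry.dist_eq]
          rw [e] at this
          exact this
      · apply le_antisymm
        · rw [hσ _ _ _ (hnn g h)]
          intro z
          exact hle g h ((k : X ≃ᵢ X) z)
        · rw [hσ _ _ _ (hnn _ _)]
          intro z
          have := hle (g * k) (h * k) ((k : X ≃ᵢ X).symm z)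
          have e1 : ((g * k : (⊤ : Subgroup (X ≃ᵢ X))) : X ≃ᵢ X) ((k : X ≃ᵢ X).symm z) = (g : X ≃ᵢ X) z := by
            show (g : X ≃ᵢ X) ((k : X ≃ᵢ X) ((k : X ≃ᵢ X).symm z)) = _
            rw [IsometryEquiv.apply_symm_apply]
          have e2 : ((h * k : (⊤ : Subgroup (X ≃ᵢ X))) : X ≃ᵢ X) ((k : X ≃ᵢ X).symm z) = (h : X ≃ᵢ X) z := by
            show (h : X ≃ᵢ X) ((k : X ≃ᵢ X) ((k : X ≃ᵢ X).symm z)) = _
            rw [IsometryEquiv.apply_symm_apply]
          rw [e1, e2] at this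
          exact this
    · intro g s
      apply Set.Subset.antisymm
      · rintro _ ⟨h, hh, rfl⟩
        rw [Metric.mem_closedBall]
        exact le_trans (hle h g x₀) hh
      · intro y hy
        rw [Metric.mem_closedBall] at hy
        obtain ⟨f, hf, hfz⟩ := hg ((g : X ≃ᵢ X) x₀) y
        refine ⟨⟨f * (g : X ≃ᵢ X), Subgroup.mem_top _⟩, ?_, hf⟩
        show σ.dist _ _ ≤ s
        have hs : 0 ≤ s := le_trans dist_nonneg hy
        rw [hσ _ _ _ hs]
        intro z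
        show dist (f ((g : X ≃ᵢ X) z)) ((g : X ≃ᵢ X) z) ≤ s
        rw [dist_comm]
        refine le_trans (hfz _) ?_
        rw [dist_comm]; exact hy

end Pool.Agent.H89.TDS
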