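import Pool.Agent.H89.TDS.Back

/-!
Coset graphs of CW data give Clifford-Wolf homogeneous vertex sets, and both classifications.
-/

open Matrix Pointwise

namespace Pool.Agent.H89.TDS

theorem cw_of_model {G : Type} [Group G] [Finite G] {H : Subgroup G} {S T : Set G}
    (hd : IsCWData H S T) {E : Type} [MetricSpace E] {c t : ℝ} {v : G ⧸ H → E}
    (h : Follows (cosetGraph H S) c t v) (hc : 0 < c) (ht : 1 < t) :
    IsCWHomogeneous (Set.range v) := by
  obtain ⟨hS, hSi, hT, hun, hd1, hd2, hd3⟩ := hd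
  have hinj := follows_inj h hc ht
  have hact : ∀ g : G, ∃ f : (Set.range v) ≃ᵢ (Set.range v), ∀ p : G ⧸ H,
      f ⟨v p, Set.mem_range_self p⟩ = ⟨v (g • p), Set.mem_range_self _⟩ := by
    intro g
    exact exists_isometry v hinj (MulAction.toPerm g)
      (fun i j => follows_aut h (MulAction.toPerm g) (fun i j => cosetGraph_smul hS g i j) i j)
  have hmk : ∀ (g x : G), g • (x : G ⧸ H) = ((g * x : G) : G ⧸ H) := fun g x => rfl
  have hSne : ∀ s ∈ S, ∀ p : G ⧸ H, s • p ≠ p := by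
    intro s hs p hp
    obtain ⟨x, rfl⟩ := QuotientGroup.mk_surjective p
    rw [hmk, eq_comm, QuotientGroup.eq] at hp
    have h1 : x⁻¹ * (s * x) ∈ S * (H : Set G) :=
      ⟨x⁻¹ * s * x⁻¹⁻¹, hS _ _ hs, 1, H.one_mem, by simp [mul_assoc]⟩
    exact Set.disjoint_left.1 hd1 hp h1
  have hTne : ∀ s ∈ T, ∀ p : G ⧸ H, s • p ≠ p := by
    intro s hs p hp
    obtain ⟨x, rfl⟩ := QuotientGroup.mk_surjective p
    rw [hmk, eq_comm, QuotientGroup.eq] at hp
    have h1 : x⁻¹ * (s * x) ∈ T * (H : Set G) :=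
      ⟨x⁻¹ * s * x⁻¹⁻¹, hT _ _ hs, 1, H.one_mem, by simp [mul_assoc]⟩
    exact Set.disjoint_left.1 hd2 hp h1
  have hSadj : ∀ s ∈ S, ∀ p : G ⧸ H, dist (v p) (v (s • p)) = c := by
    intro s hs p
    apply (h p (s • p) (hSne s hs p).symm).1
    rw [cosetGraph_adj]
    exact ⟨(hSne s hs p).symm, Or.inl ⟨s, hs, rfl⟩⟩
  have hTadj : ∀ s ∈ T, ∀ p : G ⧸ H, dist (v p) (v (s • p)) = c * t := by
    intro τ hτ p
    apply (h p (τ • p) (hTne τ hτ p).symm).2
    rw [cosetGraph_adj]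
    rintro ⟨-, h1⟩
    have h2 : ∃ s ∈ S, s • p = τ • p := by
      rcases h1 with ⟨s, hs, hsp⟩ | ⟨s, hs, hsp⟩
      · exact ⟨s, hs, hsp⟩
      · refine ⟨s⁻¹, hSi s hs, ?_⟩
        rw [inv_smul_eq_iff]; exact hsp.symm
    obtain ⟨s, hs, hsp⟩ := h2
    obtain ⟨x, rfl⟩ := QuotientGroup.mk_surjective p
    rw [hmk, hmk, QuotientGroup.eq] at hsp
    have h3 : x⁻¹ * (τ * x) ∈ T * (H : Set G) :=
      ⟨x⁻¹ * τ * x⁻¹⁻¹, hT _ _ hτ, 1, H.one_mem, by simp [mul_assoc]⟩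
    have h4 : x⁻¹ * (τ * x) ∈ S * (H : Set G) :=
      ⟨x⁻¹ * s * x⁻¹⁻¹, hS _ _ hs, (s * x)⁻¹ * (τ * x), hsp, by group⟩
    exact Set.disjoint_left.1 hd3 h4 h3
  have hex : ∀ p q : G ⧸ H, p ≠ q → ∃ g : G, g • p = q ∧ (g ∈ S ∨ g ∈ T) := by
    intro p q hpq
    obtain ⟨x, rfl⟩ := QuotientGroup.mk_surjective p
    obtain ⟨y, rfl⟩ := QuotientGroup.mk_surjective q
    have h1 : x⁻¹ * y ∈ (H : Set G) ∪ S * (H : Set G) ∪ T * (H : Set G) := by
      rw [hun]; exact Set.mem_univ _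
    rcases h1 with (h1 | h1) | h1
    · exact absurd (QuotientGroup.eq.2 h1) hpq
    · obtain ⟨s, hs, k, hk, hsk⟩ := h1
      refine ⟨x * s * x⁻¹, ?_, Or.inl (hS _ _ hs)⟩
      rw [hmk, QuotientGroup.eq]
      have : (x * s * x⁻¹ * x)⁻¹ * y = k := by
        have h5 : y = x * (s * k) := by
          have h6 : s * k = x⁻¹ * y := hsk
          rw [h6]; group
        rw [h5]; group
      rw [this]; exact hk
    · obtain ⟨s, hs, k, hk, hsk⟩ := h1
      refine ⟨x * s * x⁻¹, ?_, Or.inr (hT _ _ hs)⟩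
      rw [hmk, QuotientGroup.eq]
      have : (x * s * x⁻¹ * x)⁻¹ * y = k := by
        have h5 : y = x * (s * k) := by
          have h6 : s * k = x⁻¹ * y := hsk
          rw [h6]; group
        rw [h5]; group
      rw [this]; exact hk
  rintro ⟨_, p, rfl⟩ ⟨_, q, rfl⟩
  by_cases hpq : p = q
  · subst hpq
    refine ⟨IsometryEquiv.refl _, rfl, fun z w => ?_⟩
    show dist z z = dist w w
    simp
  · obtain ⟨g, hg, hgST⟩ := hex p q hpq
    obtain ⟨f, hf⟩ := hact g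
    obtain ⟨r, hr⟩ : ∃ r : ℝ, ∀ p : G ⧸ H, dist (v p) (v (g • p)) = r := by
      rcases hgST with h1 | h1
      · exact ⟨c, hSadj g h1⟩
      · exact ⟨c * t, hTadj g h1⟩
    refine ⟨f, ?_, ?_⟩
    · rw [hf p]
      exact Subtype.ext (by rw [hg])
    · rintro ⟨_, z, rfl⟩ ⟨_, w, rfl⟩
      rw [hf z, hf w]
      show dist (v z) (v (g • z)) = dist (v w) (v (g • w))
      rw [hr, hr]

theorem cw_bot_top {G : Type} [Group G] {H : Subgroup G} {S T : Set G}
    (hd : IsCWData H S T) (hS0 : S.Nonempty) (hT0 : T.Nonempty) :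
    cosetGraph H S ≠ ⊥ ∧ cosetGraph H S ≠ ⊤ := by
  obtain ⟨hS, hSi, hT, hun, hd1, hd2, hd3⟩ := hd
  constructor
  · obtain ⟨s, hs⟩ := hS0
    intro h0
    have h1 : (cosetGraph H S).Adj ((1 : G) : G ⧸ H) (s : G ⧸ H) := by
      rw [cosetGraph_adj]
      refine ⟨?_, Or.inl ⟨s, hs, ?_⟩⟩
      · intro h2
        rw [QuotientGroup.eq, inv_one, one_mul] at h2
        exact Set.disjoint_left.1 hd1 h2 ⟨s, hs, 1, H.one_mem, by simp⟩
      · show ((s * 1 : G) : G ⧸ H) = _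
        rw [mul_one]
    rw [h0] at h1
    exact h1
  · obtain ⟨τ, hτ⟩ := hT0
    intro h0
    have hne : ((1 : G) : G ⧸ H) ≠ (τ : G ⧸ H) := by
      intro h2
      rw [QuotientGroup.eq, inv_one, one_mul] at h2
      exact Set.disjoint_left.1 hd2 h2 ⟨τ, hτ, 1, H.one_mem, by simp⟩
    have h1 : (cosetGraph H S).Adj ((1 : G) : G ⧸ H) (τ : G ⧸ H) := by
      rw [h0, SimpleGraph.top_adj]
      exact hne
    rw [cosetGraph_adj] at h1
    obtain ⟨-, h1⟩ := h1
    have h2 : ∃ s ∈ S, s • ((1 : G) : G ⧸ H) = (τ : G ⧸ H) := by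
      rcases h1 with ⟨s, hs, hsp⟩ | ⟨s, hs, hsp⟩
      · exact ⟨s, hs, hsp⟩
      · refine ⟨s⁻¹, hSi s hs, ?_⟩
        rw [inv_smul_eq_iff]; exact hsp.symm
    obtain ⟨s, hs, hsp⟩ := h2
    have h3 : ((s * 1 : G) : G ⧸ H) = (τ : G ⧸ H) := hsp
    rw [QuotientGroup.eq, mul_one] at h3
    have h4 : τ ∈ S * (H : Set G) := ⟨s, hs, s⁻¹ * τ, h3, by simp⟩
    have h5 : τ ∈ T * (H : Set G) := ⟨τ, hτ, 1, H.one_mem, by simp⟩
    exact Set.disjoint_left.1 hd3 h4 h5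

/-- transport along a bijection of the index sets -/
theorem range_comp_equiv {V W E : Type} (v : W → E) (e : V ≃ W) :
    Set.range (fun p => v (e p)) = Set.range v := by
  ext x
  constructor
  · rintro ⟨p, rfl⟩; exact ⟨e p, rfl⟩
  · rintro ⟨q, rfl⟩; exact ⟨e.symm q, by simp⟩

theorem affine_iff_admissible {G : Type} [Group G] [Finite G] {H : Subgroup G} {S : Set G}
    (hS : ∀ g : G, ∀ s ∈ S, g * s * g⁻¹ ∈ S) {E : Type} [NormedAddCommGroup E] [InnerProductSpace ℝ E]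
    {c t : ℝ} {v : G ⧸ H → E} (h : Follows (cosetGraph H S) c t v) (hc : 0 < c) (ht : 1 < t) :
    AffineIndependent ℝ v ↔ Admissible (cosetGraph H S) t := by
  classical
  have : Fintype (G ⧸ H) := Fintype.ofFinite _
  rw [admissible_iff]
  rw [affineIndependent_iff_pos (cosetGraph H S) v c t hc ((follows_iff _ c t v).1 h)]
  constructor
  · intro h1
    refine ⟨ht, posDef_of_regular (cosetGraph H S) t ht ((cosetGraph H S).degree ((1 : G) : G ⧸ H)) ?_ h1⟩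
    apply regular_of_transitive
    intro q
    obtain ⟨g, hg⟩ := MulAction.exists_smul_eq G ((1 : G) : G ⧸ H) q
    exact ⟨⟨MulAction.toPerm g, fun {a b} => cosetGraph_smul hS g a b⟩, hg⟩
  · rintro ⟨-, h1⟩ x _ hx0
    have := (posDef_iff_dotProduct_mulVec.1 h1).2 hx0
    simpa only [star_trivial] using this

theorem exists_model_simplex {G : Type} [Group G] [Finite G] {H : Subgroup G} {S : Set G} (n : ℕ)
    (e : G ⧸ H ≃ Fin (n + 1)) {c t : ℝ} (hc : 0 < c) (ha : Admissible (cosetGraph H S) t) :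
    ∃ v : G ⧸ H → EuclideanSpace ℝ (Fin n), AffineIndependent ℝ v ∧ Follows (cosetGraph H S) c t v := by
  classical
  have : Fintype (G ⧸ H) := Fintype.ofFinite _
  have hcard : Fintype.card (G ⧸ H) = n + 1 := by
    rw [Fintype.card_congr e, Fintype.card_fin]
  rw [admissible_iff] at ha
  obtain ⟨v, hv, hd⟩ := exists_simplex (cosetGraph H S) n hcard c t hc ha.1 ha.2
  exact ⟨v, hv, (follows_iff _ c t v).2 hd⟩

end Pool.Agent.H89.TDS
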