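import Pool.Agent.H89.TDS.Simplex

/-!
Existence of two-distance simplices with a given graph.
-/

open Matrix

namespace Pool.Agent.H89.TDS

theorem exists_simplex {V : Type} [Fintype V] [DecidableEq V] (Γ : SimpleGraph V)
    [DecidableRel Γ.Adj] (n : ℕ) (hn : Fintype.card V = n + 1) (c t : ℝ) (hc : 0 < c) (ht : 1 < t)
    (hK : (Kmat Γ t).PosDef) :
    ∃ v : V → EuclideanSpace ℝ (Fin n), AffineIndependent ℝ v ∧
      ∀ i j, i ≠ j → dist (v i) (v j) = if Γ.Adj i j then c else c * t := by
  obtain ⟨B, hB⟩ : ∃ B : Matrix V V ℝ, Kmat Γ t = Bᴴ * B := by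
    open scoped MatrixOrder in
    have h1 : 0 ≤ Kmat Γ t := hK.posSemidef.nonneg
    obtain ⟨X, hX, -, h2⟩ := CFC.exists_sqrt_of_isSelfAdjoint_of_quasispectrumRestricts hK.1
          (QuasispectrumRestricts.nnreal_of_nonneg h1)
    refine ⟨X, ?_⟩
    have h3 : Xᴴ = X := hX
    have h4 : X * X = Kmat Γ t := h2
    rw [h3, h4]
  let r : ℝ := c / Real.sqrt 2
  let u : V → EuclideanSpace ℝ V := fun i => r • WithLp.toLp 2 (fun k => B k i)
  have hin : ∀ i j, inner ℝ (u i) (u j) = c ^ 2 / 2 * Kmat Γ t i j := by
    intro i j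
    simp only [u]
    rw [inner_smul_left, inner_smul_right, EuclideanSpace.inner_toLp_toLp, hB]
    simp only [Matrix.mul_apply, Matrix.conjTranspose_apply, dotProduct, star_trivial]
    have hr : r * r = c ^ 2 / 2 := by
      simp only [r]
      rw [div_mul_div_comm, Real.mul_self_sqrt (by norm_num)]
      ring
    have : ∑ x, B x j * B x i = ∑ x, B x i * B x j := by
      apply Finset.sum_congr rfl
      intro x _
      ring
    simp only [conj_trivial]
    rw [this, ← mul_assoc, hr]
  have hdist : ∀ i j, i ≠ j → dist (u i) (u j) = if Γ.Adj i j then c else c * t := by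
    intro i j hij
    have h1 : dist (u i) (u j) ^ 2 = (if Γ.Adj i j then c else c * t) ^ 2 := by
      rw [dist_eq_norm, ← real_inner_self_eq_norm_sq, inner_sub_left, inner_sub_right,
        inner_sub_right, hin, hin, hin, hin]
      unfold Kmat
      simp only [Matrix.add_apply, Matrix.smul_apply, Matrix.one_apply, SimpleGraph.adjMatrix_apply,
        smul_eq_mul]
      have hji : j ≠ i := Ne.symm hij
      by_cases ha : Γ.Adj i j
      · have ha' := ha.symm
        simp [hij, hji, ha, ha']
        ring
      · have ha' : ¬ Γ.Adj j i := fun h => ha h.symm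
        simp [hij, hji, ha, ha']
        ring
    have h2 : 0 ≤ (if Γ.Adj i j then c else c * t) := by
      split_ifs <;> positivity
    exact (sq_eq_sq₀ dist_nonneg h2).1 h1
  have haff : AffineIndependent ℝ u := by
    rw [affineIndependent_iff_pos Γ u c t hc hdist]
    intro x _ hx0
    have := (posDef_iff_dotProduct_mulVec.1 hK).2 hx0
    simpa only [star_trivial] using this
  have hfin : Module.finrank ℝ (vectorSpan ℝ (Set.range u)) = n :=
    haff.finrank_vectorSpan hn
  have : Nonempty V := Fintype.card_pos_iff.1 (by omega)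
  obtain ⟨i₀⟩ := (inferInstance : Nonempty V)
  let W := vectorSpan ℝ (Set.range u)
  let b : OrthonormalBasis (Fin n) ℝ W := (stdOrthonormalBasis ℝ W).reindex (finCongr hfin)
  have hmem : ∀ i, u i - u i₀ ∈ W := by
    intro i
    exact vsub_mem_vectorSpan ℝ (Set.mem_range_self i) (Set.mem_range_self i₀)
  let v : V → EuclideanSpace ℝ (Fin n) := fun i => b.repr ⟨u i - u i₀, hmem i⟩
  have hvd : ∀ i j, dist (v i) (v j) = dist (u i) (u j) := by
    intro i j
    simp only [v]
    rw [b.repr.dist_map, Subtype.dist_eq]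
    simp
  have hd' : ∀ i j, i ≠ j → dist (v i) (v j) = if Γ.Adj i j then c else c * t := by
    intro i j hij
    rw [hvd, hdist i j hij]
  refine ⟨v, ?_, hd'⟩
  rw [affineIndependent_iff_pos Γ v c t hc hd']
  intro x _ hx0
  have := (posDef_iff_dotProduct_mulVec.1 hK).2 hx0
  simpa only [star_trivial] using this

end Pool.Agent.H89.TDS
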