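import Pool.Agent.H89.TDS.Exist

/-!
Homogeneity of the vertex set and coset graphs.
-/

open Matrix Pointwise

namespace Pool.Agent.H89.TDS

section model

variable {G : Type} [Group G] {H : Subgroup G} {S : Set G}

theorem cosetGraph_adj (p q : G ⧸ H) :
    (cosetGraph H S).Adj p q ↔ p ≠ q ∧ ((∃ s ∈ S, s • p = q) ∨ (∃ s ∈ S, s • q = p)) := by
  simp [cosetGraph, SimpleGraph.fromRel_adj]

theorem cosetGraph_smul (hS : ∀ g : G, ∀ s ∈ S, g * s * g⁻¹ ∈ S) (g : G) (p q : G ⧸ H) :
    (cosetGraph H S).Adj (g • p) (g • q) ↔ (cosetGraph H S).Adj p q := by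
  have key : ∀ (g : G) (p q : G ⧸ H), (∃ s ∈ S, s • p = q) → ∃ s ∈ S, s • (g • p) = g • q := by
    rintro g p q ⟨s, hs, rfl⟩
    refine ⟨g * s * g⁻¹, hS g s hs, ?_⟩
    rw [smul_smul, smul_smul]
    congr 1
    group
  have key2 : ∀ (g : G) (p q : G ⧸ H), (cosetGraph H S).Adj p q → (cosetGraph H S).Adj (g • p) (g • q) := by
    intro g p q h
    rw [cosetGraph_adj] at h ⊢
    refine ⟨fun h0 => h.1 ((smul_left_cancel_iff g).1 h0), ?_⟩
    rcases h.2 with h1 | h1
    · exact Or.inl (key g p q h1)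
    · exact Or.inr (key g q p h1)
  constructor
  · intro h
    have := key2 g⁻¹ _ _ h
    simpa [smul_smul] using this
  · exact key2 g p q

theorem regular_of_transitive {V : Type} [Fintype V] (Γ : SimpleGraph V)
    [DecidableRel Γ.Adj] (v₀ : V) (htr : ∀ v : V, ∃ f : Γ ≃g Γ, f v₀ = v) :
    Γ.IsRegularOfDegree (Γ.degree v₀) := by
  intro v
  obtain ⟨f, rfl⟩ := htr v
  exact (f.degree_eq v₀)

end model

section metric

variable {X : Type} [MetricSpace X]

/-- isometry of a subspace given by an indexed family and a permutation of the index set -/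
theorem exists_isometry {V : Type} {E : Type} [MetricSpace E] (v : V → E) (hv : Function.Injective v)
    (σ : Equiv.Perm V) (hσ : ∀ i j, dist (v (σ i)) (v (σ j)) = dist (v i) (v j)) :
    ∃ f : (Set.range v) ≃ᵢ (Set.range v), ∀ i, f ⟨v i, Set.mem_range_self i⟩ = ⟨v (σ i), Set.mem_range_self _⟩ := by
  let e : V ≃ Set.range v := Equiv.ofInjective v hv
  refine ⟨⟨(e.symm.trans σ).trans e, ?_⟩, ?_⟩
  · rw [isometry_iff_dist_eq]
    intro x y
    obtain ⟨i, rfl⟩ := e.surjective x
    obtain ⟨j, rfl⟩ := e.surjective y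
    simp only [Equiv.trans_apply, Equiv.symm_apply_apply, Equiv.toFun_as_coe]
    exact hσ i j
  · intro i
    have : (⟨v i, Set.mem_range_self i⟩ : Set.range v) = e i := rfl
    rw [this]
    show ((e.symm.trans σ).trans e) (e i) = _
    simp only [Equiv.trans_apply, Equiv.symm_apply_apply]
    rfl

end metric

/-- the distances of the family `v` follow the graph `Γ` : `c` on edges, `c t` off edges -/
def Follows {V : Type} {E : Type} [MetricSpace E] (Γ : SimpleGraph V) (c t : ℝ) (v : V → E) : Prop :=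
  ∀ p q, p ≠ q → (Γ.Adj p q → dist (v p) (v q) = c) ∧ (¬ Γ.Adj p q → dist (v p) (v q) = c * t)

theorem follows_iff {V : Type} {E : Type} [MetricSpace E] (Γ : SimpleGraph V) [DecidableRel Γ.Adj]
    (c t : ℝ) (v : V → E) :
    Follows Γ c t v ↔ ∀ i j, i ≠ j → dist (v i) (v j) = if Γ.Adj i j then c else c * t := by
  unfold Follows
  constructor
  · intro h i j hij
    split_ifs with ha
    · exact (h i j hij).1 ha
    · exact (h i j hij).2 ha
  · intro h i j hij
    have := h i j hij
    constructor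
    · intro ha; rw [this, if_pos ha]
    · intro ha; rw [this, if_neg ha]

theorem follows_inj {V : Type} {E : Type} [MetricSpace E] {Γ : SimpleGraph V} {c t : ℝ} {v : V → E}
    (h : Follows Γ c t v) (hc : 0 < c) (ht : 1 < t) : Function.Injective v := by
  intro i j hij
  by_contra hne
  have h1 := h i j hne
  rw [hij, dist_self] at h1
  by_cases ha : Γ.Adj i j
  · exact absurd (h1.1 ha) hc.ne
  · have := h1.2 ha
    have h2 : 0 < c * t := by positivity
    exact absurd this h2.ne

theorem follows_dist_le {V : Type} {E : Type} [MetricSpace E] {Γ : SimpleGraph V} {c t : ℝ} {v : V → E}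
    (h : Follows Γ c t v) (hc : 0 < c) (ht : 1 < t) (i j : V) : dist (v i) (v j) ≤ c * t := by
  by_cases hij : i = j
  · subst hij; rw [dist_self]; positivity
  · by_cases ha : Γ.Adj i j
    · rw [(h i j hij).1 ha]; nlinarith
    · rw [(h i j hij).2 ha]

/-- a family that follows `Γ` is preserved by the automorphisms of `Γ` -/
theorem follows_aut {V : Type} {E : Type} [MetricSpace E] {Γ : SimpleGraph V} {c t : ℝ} {v : V → E}
    (h : Follows Γ c t v) (σ : Equiv.Perm V) (hσ : ∀ i j, Γ.Adj (σ i) (σ j) ↔ Γ.Adj i j) (i j : V) :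
    dist (v (σ i)) (v (σ j)) = dist (v i) (v j) := by
  by_cases hij : i = j
  · subst hij; simp
  · have hs : σ i ≠ σ j := fun h0 => hij (σ.injective h0)
    by_cases ha : Γ.Adj i j
    · rw [(h i j hij).1 ha, (h _ _ hs).1 ((hσ i j).2 ha)]
    · rw [(h i j hij).2 ha, (h _ _ hs).2 (fun h0 => ha ((hσ i j).1 h0))]

theorem twoDistance_of_follows {V : Type} {E : Type} [MetricSpace E] {Γ : SimpleGraph V} {c t : ℝ}
    {v : V → E} (h : Follows Γ c t v) (hc : 0 < c) (ht : 1 < t) (h1 : Γ ≠ ⊥) (h2 : Γ ≠ ⊤) :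
    IsTwoDistance (Set.range v) := by
  have hinj := follows_inj h hc ht
  refine ⟨c, c * t, by nlinarith, ?_, ?_, ?_⟩
  · obtain ⟨a, b, hab⟩ : ∃ a b, Γ.Adj a b := by
      by_contra hn
      push Not at hn
      apply h1
      ext a b
      simp [hn a b]
    exact ⟨⟨v a, Set.mem_range_self a⟩, ⟨v b, Set.mem_range_self b⟩,
      fun h0 => hab.ne (hinj (congrArg Subtype.val h0)), (h a b hab.ne).1 hab⟩
  · obtain ⟨a, b, hab, hnab⟩ : ∃ a b, a ≠ b ∧ ¬ Γ.Adj a b := by
      by_contra hn
      push Not at hn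
      apply h2
      ext a b
      simp only [SimpleGraph.top_adj]
      exact ⟨fun h => h.ne, fun h => hn a b h⟩
    exact ⟨⟨v a, Set.mem_range_self a⟩, ⟨v b, Set.mem_range_self b⟩,
      fun h0 => hab (hinj (congrArg Subtype.val h0)), (h a b hab).2 hnab⟩
  · rintro ⟨_, a, rfl⟩ ⟨_, b, rfl⟩ hne
    have hab : a ≠ b := fun h0 => hne (by subst h0; rfl)
    by_cases ha : Γ.Adj a b
    · exact Or.inl ((h a b hab).1 ha)
    · exact Or.inr ((h a b hab).2 ha)

theorem normal_of_model {G : Type} [Group G] [Finite G] {H : Subgroup G} {S : Set G}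
    (hS : ∀ g : G, ∀ s ∈ S, g * s * g⁻¹ ∈ S) {E : Type} [MetricSpace E] {c t : ℝ} {v : G ⧸ H → E}
    (h : Follows (cosetGraph H S) c t v) (hc : 0 < c) (ht : 1 < t) :
    IsNormalHomogeneous (Set.range v) := by
  have hinj := follows_inj h hc ht
  have : Finite (Set.range v) := Set.finite_range v
  have : Nonempty (Set.range v) := ⟨⟨v (1 : G), Set.mem_range_self _⟩⟩
  rw [normalHomogeneous_iff]
  have hact : ∀ g : G, ∃ f : (Set.range v) ≃ᵢ (Set.range v), ∀ p : G ⧸ H,
      f ⟨v p, Set.mem_range_self p⟩ = ⟨v (g • p), Set.mem_range_self _⟩ := by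
    intro g
    exact exists_isometry v hinj (MulAction.toPerm g)
      (fun i j => follows_aut h (MulAction.toPerm g) (fun i j => cosetGraph_smul hS g i j) i j)
  have htrans : ∀ p q : G ⧸ H, ∃ g : G, g • p = q := MulAction.exists_smul_eq G
  rintro ⟨_, p, rfl⟩ ⟨_, q, rfl⟩
  by_cases hpq : p = q
  · subst hpq
    exact ⟨IsometryEquiv.refl _, rfl, fun z => by
      show dist z z ≤ _
      simp⟩
  · by_cases ha : (cosetGraph H S).Adj p q
    · obtain ⟨g, hg, hd⟩ : ∃ g : G, g • p = q ∧ ∀ r : G ⧸ H, g • r ≠ r → (cosetGraph H S).Adj r (g • r) := by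
        rw [cosetGraph_adj] at ha
        rcases ha.2 with ⟨s, hs, hsp⟩ | ⟨s, hs, hsp⟩
        · refine ⟨s, hsp, fun r hr => ?_⟩
          rw [cosetGraph_adj]
          exact ⟨hr.symm, Or.inl ⟨s, hs, rfl⟩⟩
        · refine ⟨s⁻¹, ?_, fun r hr => ?_⟩
          · rw [← hsp, smul_smul, inv_mul_cancel, one_smul]
          · rw [cosetGraph_adj]
            refine ⟨hr.symm, Or.inr ⟨s, hs, ?_⟩⟩
            rw [smul_smul, mul_inv_cancel, one_smul]
      obtain ⟨f, hf⟩ := hact g
      refine ⟨f, ?_, ?_⟩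
      · rw [hf p]
        exact Subtype.ext (by rw [hg])
      · rintro ⟨_, r, rfl⟩
        rw [hf r]
        show dist (v r) (v (g • r)) ≤ dist (v p) (v q)
        rw [(h p q hpq).1 ha]
        by_cases hr : g • r = r
        · rw [hr, dist_self]; exact hc.le
        · rw [(h r (g • r) (Ne.symm hr)).1 (hd r hr)]
    · obtain ⟨g, hg⟩ := htrans p q
      obtain ⟨f, hf⟩ := hact g
      refine ⟨f, ?_, ?_⟩
      · rw [hf p]
        exact Subtype.ext (by rw [hg])
      · rintro ⟨_, r, rfl⟩
        rw [hf r]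
        show dist (v r) (v (g • r)) ≤ dist (v p) (v q)
        rw [(h p q hpq).2 ha]
        exact follows_dist_le h hc ht _ _

end Pool.Agent.H89.TDS
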