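import Pool.Agent.H89.TDS.CW

/-!
Abelian transitive subgroups of transitive groups of degree `p` or `p²`.
-/

namespace Pool.Agent.H89.TDS

/-- A Sylow `p`-subgroup of a group acting transitively on a set of prime power size is transitive. -/
theorem sylow_transitive {A V : Type} [Group A] [Finite A] [Finite V] [MulAction A V]
    [MulAction.IsPretransitive A V] (p k : ℕ) [hp : Fact p.Prime] (hc : Nat.card V = p ^ k)
    (P : Sylow p A) (x : V) : MulAction.orbit P x = Set.univ := by
  classical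
  have h1 : (MulAction.stabilizer A x).index = p ^ k := by
    rw [MulAction.index_stabilizer_of_transitive A x, hc]
  have h2 : (MulAction.stabilizer P x).index = (MulAction.orbit P x).ncard :=
    MulAction.index_stabilizer P x
  have h3 : MulAction.stabilizer P x = (MulAction.stabilizer A x).subgroupOf (P : Subgroup A) := by
    ext g
    rw [MulAction.mem_stabilizer_iff, Subgroup.mem_subgroupOf, MulAction.mem_stabilizer_iff]
    rfl
  have h4 : (MulAction.stabilizer P x).index = (MulAction.stabilizer A x).relIndex (P : Subgroup A) := by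
    rw [h3]; rfl
  set Hx := MulAction.stabilizer A x
  have h5 : Hx.index ∣ Hx.relIndex (P : Subgroup A) * (P : Subgroup A).index := by
    have e1 := Subgroup.relIndex_mul_index (inf_le_right : Hx ⊓ (P : Subgroup A) ≤ P)
    have e2 := Subgroup.relIndex_mul_index (inf_le_left : Hx ⊓ (P : Subgroup A) ≤ Hx)
    rw [Subgroup.inf_relIndex_right] at e1
    rw [e1, ← e2]
    exact Dvd.intro_left _ rfl
  rw [h1] at h5
  have h6 : Nat.Coprime (p ^ k) (P : Subgroup A).index := by
    apply Nat.Coprime.pow_left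
    rw [Nat.Prime.coprime_iff_not_dvd hp.out]
    exact P.not_dvd_index
  have h7 : p ^ k ∣ Hx.relIndex (P : Subgroup A) := h6.dvd_of_dvd_mul_right h5
  rw [← h4, h2] at h7
  have h8 : 0 < (MulAction.orbit P x).ncard := by
    rw [Set.ncard_pos]
    exact ⟨x, MulAction.mem_orbit_self x⟩
  have h9 := Nat.le_of_dvd h8 h7
  rw [← hc] at h9
  apply Set.eq_of_subset_of_ncard_le (Set.subset_univ _)
  rw [Set.ncard_univ]
  exact h9

/-- A transitive faithful permutation group of degree `p^k`, `k ≤ 2`, has a transitive abelian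
subgroup. -/
theorem exists_abelian_transitive {A V : Type} [Group A] [Finite A] [Finite V] [Nonempty V]
    [MulAction A V] [FaithfulSMul A V] [MulAction.IsPretransitive A V] (p k : ℕ)
    [hp : Fact p.Prime] (hk : k ≤ 2) (hc : Nat.card V = p ^ k) :
    ∃ B : Subgroup A, (∀ a ∈ B, ∀ b ∈ B, a * b = b * a) ∧ ∀ x y : V, ∃ b ∈ B, b • x = y := by
  classical
  obtain ⟨P⟩ := (inferInstance : Nonempty (Sylow p A))
  obtain ⟨x₀⟩ := (inferInstance : Nonempty V)
  have hPtr : ∀ x y : V, ∃ g ∈ (P : Subgroup A), g • x = y := by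
    intro x y
    have h := sylow_transitive p k hc P x
    have hy : y ∈ MulAction.orbit P x := by rw [h]; exact Set.mem_univ _
    obtain ⟨g, hg⟩ := hy
    exact ⟨g, g.2, hg⟩
  by_cases hone : ∀ y : V, y = x₀
  · refine ⟨⊥, ?_, ?_⟩
    · intro a ha b hb
      rw [Subgroup.mem_bot] at ha hb
      rw [ha, hb]
    · intro x y
      exact ⟨1, Subgroup.one_mem _, by rw [one_smul, hone x, hone y]⟩
  push Not at hone
  obtain ⟨y₀, hy₀⟩ := hone
  have hnt : Nontrivial P := by
    obtain ⟨g, hg, hgx⟩ := hPtr x₀ y₀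
    refine ⟨⟨⟨g, hg⟩, 1, ?_⟩⟩
    intro h0
    have : g = 1 := congrArg Subtype.val h0
    rw [this, one_smul] at hgx
    exact hy₀ hgx.symm
  have hzn : Nontrivial (Subgroup.center P) := P.2.center_nontrivial
  obtain ⟨z, hz⟩ := exists_ne (1 : Subgroup.center P)
  -- the centre as a subgroup of `A`
  let Z : Subgroup A := (Subgroup.center P).map (P : Subgroup A).subtype
  have hZP : Z ≤ (P : Subgroup A) := by
    rintro _ ⟨a, -, rfl⟩
    exact a.2
  have hZc : ∀ a ∈ Z, ∀ g ∈ (P : Subgroup A), a * g = g * a := by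
    rintro _ ⟨a, ha, rfl⟩ g hg
    have := Subgroup.mem_center_iff.1 ha ⟨g, hg⟩
    exact (congrArg Subtype.val this).symm
  let z' : A := ((z : P) : A)
  have hz'Z : z' ∈ Z := ⟨(z : P), z.2, rfl⟩
  have hz'1 : z' ≠ 1 := by
    intro h0
    apply hz
    apply Subtype.ext
    apply Subtype.ext
    exact h0
  have hz'x : ∀ x : V, z' • x ≠ x := by
    intro x hx
    apply hz'1
    apply FaithfulSMul.eq_of_smul_eq_smul (α := V)
    intro y
    obtain ⟨g, hg, rfl⟩ := hPtr x y
    rw [one_smul, smul_smul, hZc z' hz'Z g hg, mul_smul, hx]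
  have hpg : IsPGroup p (P : Subgroup A) := P.2
  have hcard : ∀ (B : Subgroup A), B ≤ (P : Subgroup A) → ∃ m : ℕ, (MulAction.orbit B x₀).ncard = p ^ m := by
    intro B hB
    have hBp : IsPGroup p B := hpg.to_le hB
    obtain ⟨m, hm⟩ := hBp.card_orbit x₀
    exact ⟨m, by rw [← hm]; rfl⟩
  obtain ⟨m, hm⟩ := hcard Z hZP
  have hm1 : 1 ≤ m := by
    by_contra hlt
    have hm0 : m = 0 := by omega
    rw [hm0, pow_zero, Set.ncard_eq_one] at hm
    obtain ⟨w, hw⟩ := hm
    have h1 : x₀ ∈ MulAction.orbit Z x₀ := MulAction.mem_orbit_self x₀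
    have h2 : z' • x₀ ∈ MulAction.orbit Z x₀ := ⟨⟨z', hz'Z⟩, rfl⟩
    rw [hw] at h1 h2
    exact hz'x x₀ (by rw [Set.mem_singleton_iff.1 h2]; exact (Set.mem_singleton_iff.1 h1).symm)
  by_cases hfull : MulAction.orbit Z x₀ = Set.univ
  · refine ⟨Z, fun a ha b hb => hZc a ha b (hZP hb), ?_⟩
    intro x y
    have hx : x ∈ MulAction.orbit Z x₀ := by rw [hfull]; exact Set.mem_univ _
    have hy : y ∈ MulAction.orbit Z x₀ := by rw [hfull]; exact Set.mem_univ _
    obtain ⟨a, ha⟩ := hx
    obtain ⟨b, hb⟩ := hy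
    refine ⟨(b : A) * (a : A)⁻¹, Z.mul_mem b.2 (Z.inv_mem a.2), ?_⟩
    have ha' : (a : A) • x₀ = x := ha
    have hb' : (b : A) • x₀ = y := hb
    rw [← ha', mul_smul, inv_smul_smul, hb']
  · obtain ⟨y, hy⟩ : ∃ y, y ∉ MulAction.orbit Z x₀ := by
      by_contra hn
      push Not at hn
      exact hfull (Set.eq_univ_of_forall hn)
    obtain ⟨g, hg, hgy⟩ := hPtr x₀ y
    -- the subgroup generated by `Z` and `g`
    let B : Subgroup A := Subgroup.closure ((Z : Set A) ∪ {g})
    have hBP : B ≤ (P : Subgroup A) := by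
      rw [Subgroup.closure_le]
      rintro a (ha | ha)
      · exact hZP ha
      · rw [Set.mem_singleton_iff.1 ha]; exact hg
    have hcomm0 : ∀ a ∈ (Z : Set A) ∪ {g}, ∀ b ∈ (Z : Set A) ∪ {g}, a * b = b * a := by
      rintro a (ha | ha) b (hb | hb)
      · exact hZc a ha b (hZP hb)
      · rw [Set.mem_singleton_iff.1 hb]; exact hZc a ha g hg
      · rw [Set.mem_singleton_iff.1 ha]; exact (hZc b hb g hg).symm
      · rw [Set.mem_singleton_iff.1 ha, Set.mem_singleton_iff.1 hb]
    have hBcomm : ∀ a ∈ B, ∀ b ∈ B, a * b = b * a := by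
      intro a ha b hb
      have hcc := Subgroup.isMulCommutative_closure hcomm0
      exact congrArg Subtype.val (hcc.is_comm.comm ⟨a, ha⟩ ⟨b, hb⟩)
    obtain ⟨m', hm'⟩ := hcard B hBP
    have hsub : MulAction.orbit Z x₀ ⊂ MulAction.orbit B x₀ := by
      rw [Set.ssubset_iff_of_subset]
      · refine ⟨y, ⟨⟨g, Subgroup.subset_closure (Or.inr rfl)⟩, hgy⟩, hy⟩
      · rintro _ ⟨a, rfl⟩
        exact ⟨⟨a, Subgroup.subset_closure (Or.inl a.2)⟩, rfl⟩
    have hlt := Set.ncard_lt_ncard hsub (Set.toFinite _)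
    rw [hm, hm'] at hlt
    have hmm : m < m' := (Nat.pow_lt_pow_iff_right hp.out.one_lt).1 hlt
    have hkm : k ≤ m' := by omega
    have hBfull : MulAction.orbit B x₀ = Set.univ := by
      apply Set.eq_of_subset_of_ncard_le (Set.subset_univ _)
      rw [Set.ncard_univ, hc, hm']
      exact Nat.pow_le_pow_right hp.out.pos hkm
    refine ⟨B, hBcomm, ?_⟩
    intro x y
    have hx : x ∈ MulAction.orbit B x₀ := by rw [hBfull]; exact Set.mem_univ _
    have hy : y ∈ MulAction.orbit B x₀ := by rw [hBfull]; exact Set.mem_univ _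
    obtain ⟨a, ha⟩ := hx
    obtain ⟨b, hb⟩ := hy
    refine ⟨(b : A) * (a : A)⁻¹, B.mul_mem b.2 (B.inv_mem a.2), ?_⟩
    have ha' : (a : A) • x₀ = x := ha
    have hb' : (b : A) • x₀ = y := hb
    rw [← ha', mul_smul, inv_smul_smul, hb']

end Pool.Agent.H89.TDS
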