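import Pool.Agent.H89.TDS.Basic

/-!
Two-distance simplices and the matrix `t² 1 + (t² - 1) A`.
-/

open Matrix

namespace Pool.Agent.H89.TDS

section

variable {V : Type} [Fintype V] [DecidableEq V] (Γ : SimpleGraph V) [DecidableRel Γ.Adj]

/-- the matrix `t² 1 + (t² - 1) A` -/
noncomputable def Kmat (t : ℝ) : Matrix V V ℝ :=
  t ^ 2 • (1 : Matrix V V ℝ) + (t ^ 2 - 1) • Γ.adjMatrix ℝ

theorem Kmat_mulVec (t : ℝ) (x : V → ℝ) :
    Kmat Γ t *ᵥ x = t ^ 2 • x + (t ^ 2 - 1) • (Γ.adjMatrix ℝ *ᵥ x) := by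
  unfold Kmat
  rw [add_mulVec, smul_mulVec, smul_mulVec, one_mulVec]

theorem Kmat_herm (t : ℝ) : (Kmat Γ t).IsHermitian := by
  unfold Kmat
  ext i j
  simp [Matrix.one_apply, SimpleGraph.adjMatrix_apply, SimpleGraph.adj_comm, eq_comm]

theorem finsum_nbr (f : V → ℝ) (p : V) :
    (∑ᶠ q ∈ Γ.neighborSet p, f q) = (Γ.adjMatrix ℝ *ᵥ f) p := by
  rw [SimpleGraph.adjMatrix_mulVec_apply, ← finsum_mem_coe_finset (fun q => f q) (Γ.neighborFinset p)]
  simp only [SimpleGraph.coe_neighborFinset]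

theorem admissible_iff (t : ℝ) : Admissible Γ t ↔ 1 < t ∧ (Kmat Γ t).PosDef := by
  unfold Admissible
  refine and_congr_right fun ht => ?_
  have ht2 : 0 < t ^ 2 - 1 := by nlinarith
  constructor
  · intro h
    rw [(Kmat_herm Γ t).posDef_iff_eigenvalues_pos]
    intro i
    set ev := (Kmat_herm Γ t).eigenvalues i with hev
    set u : V → ℝ := ⇑((Kmat_herm Γ t).eigenvectorBasis i) with hu
    have h1 : Kmat Γ t *ᵥ u = ev • u := (Kmat_herm Γ t).mulVec_eigenvectorBasis i
    have hu0 : u ≠ 0 := by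
      intro h0
      have hn : ‖(Kmat_herm Γ t).eigenvectorBasis i‖ = 1 :=
        (Kmat_herm Γ t).eigenvectorBasis.orthonormal.1 i
      have : (Kmat_herm Γ t).eigenvectorBasis i = 0 := by
        ext j
        exact congrFun h0 j
      rw [this, norm_zero] at hn
      exact zero_ne_one hn
    have h2 := h ((ev - t ^ 2) / (t ^ 2 - 1)) u hu0 (by
      intro p
      rw [finsum_nbr]
      have h3 := congrFun h1 p
      rw [Kmat_mulVec] at h3
      simp only [Pi.add_apply, Pi.smul_apply, smul_eq_mul] at h3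
      field_simp
      linarith)
    have h4 : t ^ 2 + (t ^ 2 - 1) * ((ev - t ^ 2) / (t ^ 2 - 1)) = ev := by
      field_simp
      ring
    rw [h4] at h2
    exact h2
  · intro h lam f hf hev
    have h1 : 0 < star f ⬝ᵥ (Kmat Γ t *ᵥ f) := (posDef_iff_dotProduct_mulVec.1 h).2 hf
    have h2 : Kmat Γ t *ᵥ f = (t ^ 2 + (t ^ 2 - 1) * lam) • f := by
      rw [Kmat_mulVec]
      ext p
      have := hev p
      rw [finsum_nbr] at this
      simp only [Pi.add_apply, Pi.smul_apply, smul_eq_mul, this]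
      ring
    rw [h2, dotProduct_smul] at h1
    have h3 : 0 ≤ star f ⬝ᵥ f := by
      simp only [star_trivial]
      exact Finset.sum_nonneg fun i _ => mul_self_nonneg _
    simp only [smul_eq_mul] at h1
    exact (pos_iff_pos_of_mul_pos h1).2 (lt_of_le_of_ne h3 (by rintro h5; rw [← h5] at h1; simp at h1))

end

section

variable {V : Type} [Fintype V] [DecidableEq V] (Γ : SimpleGraph V) [DecidableRel Γ.Adj]
variable {E : Type} [NormedAddCommGroup E] [InnerProductSpace ℝ E]

theorem gram_formula (v : V → E) (c t : ℝ)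
    (hd : ∀ i j, i ≠ j → dist (v i) (v j) = if Γ.Adj i j then c else c * t)
    (x : V → ℝ) (hx : ∑ i, x i = 0) :
    ‖Finset.univ.weightedVSub v x‖ ^ 2 = c ^ 2 / 2 * (x ⬝ᵥ (Kmat Γ t *ᵥ x)) := by
  rw [← real_inner_self_eq_norm_sq, EuclideanGeometry.inner_weightedVSub v hx v hx]
  have hd2 : ∀ i j, dist (v i) (v j) * dist (v i) (v j) =
      c ^ 2 * t ^ 2 - c ^ 2 * (t ^ 2 - 1) * (Γ.adjMatrix ℝ i j)
        - c ^ 2 * t ^ 2 * (if i = j then 1 else 0) := by
    intro i j
    by_cases hij : i = j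
    · subst hij
      simp
    · rw [hd i j hij, SimpleGraph.adjMatrix_apply]
      by_cases ha : Γ.Adj i j
      · simp [ha, hij]; ring
      · simp [ha, hij]; ring
  have h1 : ∑ i, ∑ j, x i * x j * (dist (v i) (v j) * dist (v i) (v j)) =
      - (c ^ 2 * (x ⬝ᵥ (Kmat Γ t *ᵥ x))) := by
    have h2 : ∀ i, ∑ j, x i * x j * (dist (v i) (v j) * dist (v i) (v j)) =
        - (c ^ 2 * (x i * (Kmat Γ t *ᵥ x) i)) := by
      intro i
      rw [Kmat_mulVec]
      simp only [Pi.add_apply, Pi.smul_apply, smul_eq_mul]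
      have h3 : ∀ j, x i * x j * (dist (v i) (v j) * dist (v i) (v j)) =
          x i * c ^ 2 * t ^ 2 * x j - x i * c ^ 2 * (t ^ 2 - 1) * (Γ.adjMatrix ℝ i j * x j)
           - x i * c ^ 2 * t ^ 2 * (if i = j then x j else 0) := by
        intro j
        rw [hd2 i j]
        split_ifs <;> ring
      simp_rw [h3]
      rw [Finset.sum_sub_distrib, Finset.sum_sub_distrib, ← Finset.mul_sum, ← Finset.mul_sum,
        ← Finset.mul_sum, hx, Finset.sum_ite_eq]
      simp only [Finset.mem_univ, if_true]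
      have h4 : (Γ.adjMatrix ℝ *ᵥ x) i = ∑ j, Γ.adjMatrix ℝ i j * x j := rfl
      rw [h4]
      ring
    simp_rw [h2]
    rw [Finset.sum_neg_distrib, ← Finset.mul_sum]
    rfl
  rw [h1]
  ring

theorem affineIndependent_iff_pos (v : V → E) (c t : ℝ) (hc : 0 < c)
    (hd : ∀ i j, i ≠ j → dist (v i) (v j) = if Γ.Adj i j then c else c * t) :
    AffineIndependent ℝ v ↔
      ∀ x : V → ℝ, ∑ i, x i = 0 → x ≠ 0 → 0 < x ⬝ᵥ (Kmat Γ t *ᵥ x) := by
  rw [affineIndependent_iff_of_fintype]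
  have hc2 : 0 < c ^ 2 / 2 := by positivity
  constructor
  · intro h x hx hx0
    have h1 := gram_formula Γ v c t hd x hx
    have h2 : Finset.univ.weightedVSub v x ≠ (0 : E) := by
      intro h0
      exact hx0 (funext (h x hx h0))
    have h3 : 0 < ‖Finset.univ.weightedVSub v x‖ ^ 2 := by
      have := norm_pos_iff.2 h2
      positivity
    rw [h1] at h3
    exact (pos_iff_pos_of_mul_pos h3).1 hc2
  · intro h x hx hx0 i
    by_contra hne
    have h1 := gram_formula Γ v c t hd x hx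
    have h2 := h x hx (fun h0 => hne (by rw [h0]; rfl))
    rw [hx0, norm_zero] at h1
    have := mul_pos hc2 h2
    rw [← h1] at this
    simp at this

theorem posDef_of_regular (t : ℝ) (ht : 1 < t) (k : ℕ) (hreg : Γ.IsRegularOfDegree k) [Nonempty V]
    (h : ∀ x : V → ℝ, ∑ i, x i = 0 → x ≠ 0 → 0 < x ⬝ᵥ (Kmat Γ t *ᵥ x)) :
    (Kmat Γ t).PosDef := by
  rw [posDef_iff_dotProduct_mulVec]
  refine ⟨Kmat_herm Γ t, ?_⟩
  intro x hx
  simp only [star_trivial]
  have ht2 : 0 < t ^ 2 - 1 := by nlinarith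
  set N : ℝ := (Fintype.card V : ℝ) with hN
  have hNpos : 0 < N := by
    rw [hN]
    exact_mod_cast Fintype.card_pos
  set α : ℝ := (∑ i, x i) / N with hα
  set y : V → ℝ := fun i => x i - α with hy
  set o : V → ℝ := fun _ => 1 with ho
  have hxy : x = y + α • o := by
    ext i
    simp [hy, ho]
  have hysum : ∑ i, y i = 0 := by
    simp only [hy, Finset.sum_sub_distrib, Finset.sum_const, Finset.card_univ, nsmul_eq_mul]
    rw [← hN, hα]
    field_simp
    ring
  have hK1 : Kmat Γ t *ᵥ o = (t ^ 2 + (t ^ 2 - 1) * k) • o := by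
    rw [Kmat_mulVec]
    ext i
    have : (Γ.adjMatrix ℝ *ᵥ o) i = k := by
      rw [SimpleGraph.adjMatrix_mulVec_apply]
      simp only [ho, Finset.sum_const, nsmul_eq_mul, mul_one]
      have := hreg i
      rw [SimpleGraph.card_neighborFinset_eq_degree, this]
    simp only [Pi.add_apply, Pi.smul_apply, smul_eq_mul, this]
    simp only [ho]
    ring
  have hyo : y ⬝ᵥ o = 0 := by
    simp only [dotProduct, ho, mul_one]
    exact hysum
  have hsym : o ⬝ᵥ (Kmat Γ t *ᵥ y) = 0 := by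
    have h1 : (Kmat Γ t)ᵀ = Kmat Γ t := by
      have := Kmat_herm Γ t
      rw [IsHermitian, conjTranspose_eq_transpose_of_trivial] at this
      exact this
    rw [dotProduct_mulVec, ← mulVec_transpose, h1, hK1, smul_dotProduct, dotProduct_comm, hyo]
    simp
  have hoo : o ⬝ᵥ o = N := by
    simp [dotProduct, ho, hN]
  have hexp : x ⬝ᵥ (Kmat Γ t *ᵥ x) =
      y ⬝ᵥ (Kmat Γ t *ᵥ y) + α ^ 2 * N * (t ^ 2 + (t ^ 2 - 1) * k) := by
    conv_lhs => rw [hxy]
    rw [mulVec_add, mulVec_smul, add_dotProduct, dotProduct_add, dotProduct_add, smul_dotProduct,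
      smul_dotProduct, dotProduct_smul, dotProduct_smul, hsym, hK1, dotProduct_smul,
      dotProduct_smul, hyo, hoo]
    simp only [smul_eq_mul]
    ring
  rw [hexp]
  have hpos : 0 < t ^ 2 + (t ^ 2 - 1) * k := by positivity
  by_cases hy0 : y = 0
  · have hα0 : α ≠ 0 := by
      intro h0
      apply hx
      rw [hxy, hy0, h0]
      simp
    rw [hy0]
    simp only [mulVec_zero, dotProduct_zero, zero_add]
    have : 0 < α ^ 2 := by positivity
    positivity
  · have := h y hysum hy0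
    have h5 : 0 ≤ α ^ 2 * N * (t ^ 2 + (t ^ 2 - 1) * k) := by positivity
    linarith

end

end Pool.Agent.H89.TDS
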